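import Pool.Agent.H77.QfA

open H77.Qf

theorem Pool.Agent.Results.MP_628392_al.NotUnique.result :
    ∃ (F : R) (A B : Fin 2 → R), F ≠ 0 ∧ Admissible F A ∧ Admissible F B ∧
      ∃ i, ∀ j, ¬ Similar (A i) (B j) :=
  main
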